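import Mathlib

namespace Pool.Agent.Results.MP_052694_co.Counter

/-- `p` is the least eventual period of `a` -/
def IsPeriod (a : ℕ → ℕ) (p : ℕ) : Prop :=
  IsLeast {q | 1 ≤ q ∧ ∃ n₀, ∀ n ≥ n₀, a (n + q) = a n} p

def tab : List ℕ := [0,0,1,1,2,2,3,0,4,1,3,2,4,0,0,1,1,2,2,4,0,3,1,4,2,3]

def g (n : ℕ) : ℕ := tab.getD (n % 26) 0

def P (n : ℕ) : Prop := (∀ s ∈ ({2, 3, 5, 8, 9, 10} : Finset ℕ), s ≤ n → g (n - s) ≠ g n) ∧
  ∀ m < g n, ∃ s ∈ ({2, 3, 5, 8, 9, 10} : Finset ℕ), s ≤ n ∧ g (n - s) = m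

theorem g_add (n : ℕ) : g (n + 26) = g n := by simp [g]

theorem hP (n : ℕ) : P n := by
  induction n using Nat.strong_induction_on with
  | _ n ih =>
    by_cases h : n < 36
    · have : ∀ n < 36, P n := by unfold P; decide +kernel
      exact this n h
    · obtain ⟨k, rfl⟩ : ∃ k, n = k + 26 := ⟨n - 26, by omega⟩
      obtain ⟨h1, h2⟩ := ih k (by omega)
      have e : ∀ s ∈ ({2, 3, 5, 8, 9, 10} : Finset ℕ), s ≤ k ∧ g (k + 26 - s) = g (k - s) := by
        intro s hs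
        have : s ≤ 10 := by simp only [Finset.mem_insert, Finset.mem_singleton] at hs; omega
        exact ⟨by omega, by rw [show k + 26 - s = k - s + 26 by omega, g_add]⟩
      refine ⟨fun s hs _ => ?_, fun m hm => ?_⟩
      · rw [(e s hs).2, g_add]; exact h1 s hs (e s hs).1
      · rw [g_add] at hm
        obtain ⟨s, hs, h3, h4⟩ := h2 m hm
        exact ⟨s, hs, by omega, by rw [(e s hs).2, h4]⟩

theorem per (a : ℕ → ℕ) (p : ℕ) (hp : 1 ≤ p) (h1 : ∀ n, a (n + p) = a n)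
    (h2 : ∀ q < p, 1 ≤ q → ∃ r < p, a (r + q) ≠ a r) : IsPeriod a p := by
  refine ⟨⟨hp, 0, fun n _ => h1 n⟩, fun q ⟨hq, n₀, h⟩ => ?_⟩
  by_contra hlt
  obtain ⟨r, -, hr⟩ := h2 q (by omega) hq
  have m : ∀ k n, a (n + k * p) = a n := by
    intro k
    induction k with
    | zero => simp
    | succ k ih => intro n; rw [Nat.succ_mul, ← add_assoc, h1, ih]
  have := h (r + n₀ * p) (by nlinarith)
  rw [add_right_comm, m, m] at this
  exact hr this

theorem result : ∃ (S : Finset ℕ) (G : ℕ → ℕ), S.Nonempty ∧ 0 ∉ S ∧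
    (∀ n, IsLeast {m | ∀ s ∈ S, s ≤ n → G (n - s) ≠ m} (G n)) ∧
    IsPeriod G 26 ∧ IsPeriod (fun n => if G n = 0 then 0 else 1) 13 := by
  refine ⟨{2, 3, 5, 8, 9, 10}, g, by simp, by simp, fun n => ⟨(hP n).1, fun m hm => ?_⟩,
    per _ _ (by norm_num) g_add (by decide +kernel), per _ _ (by norm_num) (fun n => ?_) (by decide +kernel)⟩
  · by_contra hlt
    obtain ⟨s, hs, h1, h2⟩ := (hP n).2 m (by omega)
    exact hm s hs h1 h2
  · have : ∀ r < 26, (if g (r + 13) = 0 then 0 else 1) = (if g r = 0 then 0 else 1) := by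
      decide +kernel
    have h := this (n % 26) (Nat.mod_lt _ (by norm_num))
    have e1 : g (n % 26 + 13) = g (n + 13) := by unfold g; congr 1; omega
    have e2 : g (n % 26) = g n := by unfold g; congr 1; omega
    rwa [e1, e2] at h

end Pool.Agent.Results.MP_052694_co.Counter
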